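import Pool.Agent.helper17.Dya.Geo

set_option autoImplicit false

/-!
# Three-dimensional dyadic tilings: no tiling for `p ≤ 5 / 32`
-/

namespace Pool.Agent.helper17.Dya

open Finset Filter
open scoped Classical

/-- the height of the slice `t` -/
def zt (n r t : ℕ) : ℕ := t * 2 ^ (n - r)

lemma zt_lt {n r t : ℕ} (hr : r ≤ n) (ht : t < 2 ^ r) : zt n r t < 2 ^ n := by
  unfold zt
  calc t * 2 ^ (n - r) < 2 ^ r * 2 ^ (n - r) := Nat.mul_lt_mul_of_pos_right ht (by positivity)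
    _ = 2 ^ n := by rw [← pow_add]; congr 1; omega

lemma bx_disj {n r t t' : ℕ} (hr : r ≤ n) (ht : t < 2 ^ r) (ht' : t' < 2 ^ r) {q q' : Rc}
    (hq : q ∈ G (n - r)) (hq' : q' ∈ G (n - r)) (h : bx n (zt n r t) q = bx n (zt n r t') q') :
    t = t' := by
  have hG : ∀ q : Rc, q ∈ G (n - r) → q ∈ G n := fun q hq => ⟨hq.1.trans (Nat.sub_le _ _), hq.2⟩
  obtain ⟨a1, a2, -, -, -, a6⟩ := bx_vals (hG q hq) (zt_lt hr ht)
  obtain ⟨b1, b2, -, -, -, b6⟩ := bx_vals (hG q' hq') (zt_lt hr ht')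
  rw [h] at a1 a2 a6
  have e1 : q.1 = q'.1 := a1.symm.trans b1
  have e2 : q.2.2.1 = q'.2.2.1 := a2.symm.trans b2
  have e3 : zt n r t / 2 ^ (q.1 + q.2.2.1) = zt n r t' / 2 ^ (q'.1 + q'.2.2.1) := a6.symm.trans b6
  rw [← e1, ← e2] at e3
  have hm : q.1 + q.2.2.1 ≤ n - r := hq.1
  have key : ∀ u : ℕ, zt n r u / 2 ^ (q.1 + q.2.2.1) = u * 2 ^ (n - r - (q.1 + q.2.2.1)) := by
    intro u
    unfold zt
    have : 2 ^ (n - r) = 2 ^ (n - r - (q.1 + q.2.2.1)) * 2 ^ (q.1 + q.2.2.1) := by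
      rw [← pow_add]; congr 1; omega
    rw [this, ← mul_assoc]
    exact Nat.mul_div_cancel _ (by positivity)
  rw [key, key] at e3
  exact Nat.eq_of_mul_eq_mul_right (by positivity) e3

lemma Pr_all {n r : ℕ} (p : ℝ) (hr : r ≤ n) : ∀ K : ℕ, K ≤ 2 ^ r →
    Pr p (fun ω : Bx n → Bool => ∀ t < K, E (bx n (zt n r t)) (n - r) 0 0 0 0 ω) =
      s p (n - r) ^ K := by
  intro K
  induction K with
  | zero =>
    intro _
    rw [pow_zero, ← Pr_true (p := p) (ι := Bx n)]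
    exact Pr_congr fun ω => by simp
  | succ K ih =>
    intro hK
    have h1 : Pr p (fun ω : Bx n → Bool => ∀ t < K + 1, E (bx n (zt n r t)) (n - r) 0 0 0 0 ω) =
        Pr p (fun ω : Bx n → Bool => (∀ t < K, E (bx n (zt n r t)) (n - r) 0 0 0 0 ω) ∧
          E (bx n (zt n r K)) (n - r) 0 0 0 0 ω) := by
      refine Pr_congr fun ω => ⟨fun h => ⟨fun t ht => h t (by omega), h K (by omega)⟩, ?_⟩
      rintro ⟨h2, h3⟩ t ht
      rcases Nat.lt_succ_iff_lt_or_eq.1 ht with h4 | rfl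
      · exact h2 t h4
      · exact h3
    have h2 := Pr_and (p := p)
      (E := fun ω : Bx n → Bool => ∀ t < K, E (bx n (zt n r t)) (n - r) 0 0 0 0 ω)
      (F := E (bx n (zt n r K)) (n - r) 0 0 0 0)
      (A := {x | ∃ t < K, x ∈ bx n (zt n r t) '' D (n - r) 0 0 0 0})
      (B := bx n (zt n r K) '' D (n - r) 0 0 0 0) ?_ (dep_E _ _ _ _ _ _) ?_
    · rw [h1, h2, ih (by omega), pow_succ,
        Pr_E_root (bx n (zt n r K)) (bx_inj (zt_lt hr (by omega))) (Nat.sub_le n r)]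
    · intro ω ω' hω
      refine forall₂_congr fun t ht => ?_
      exact dep_E _ _ _ _ _ _ _ _ fun i hi => hω i ⟨t, ht, hi⟩
    · rintro _ ⟨t, ht, q, hq, rfl⟩ ⟨q', hq', he⟩
      have hD : D (n - r) 0 0 0 0 ⊆ G (n - r) :=
        D_sub_G (by norm_num) (by norm_num) (by omega)
      have := bx_disj hr (by omega) (by omega) (hD hq) (hD hq') he.symm
      omega

lemma Pr_diff {n r t : ℕ} {p : ℝ} (hr : r ≤ n) (ht : t < 2 ^ r) :
    Pr p (fun ω : Bx n → Bool => E (bx n (zt n r t)) n 0 0 0 0 ω ∧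
      ¬ E (bx n (zt n r t)) (n - r) 0 0 0 0 ω) = s p n - s p (n - r) := by
  have h1 := Pr_E_root (p := p) (bx n (zt n r t)) (bx_inj (zt_lt hr ht)) (Nat.sub_le n r)
  have h2 := Pr_E_root (p := p) (bx n (zt n r t)) (bx_inj (zt_lt hr ht)) (le_refl n)
  have h3 := Pr_or (p := p) (fun ω : Bx n → Bool => E (bx n (zt n r t)) n 0 0 0 0 ω ∧
      ¬ E (bx n (zt n r t)) (n - r) 0 0 0 0 ω) (E (bx n (zt n r t)) (n - r) 0 0 0 0)
  have h4 : Pr p (fun ω : Bx n → Bool => (E (bx n (zt n r t)) n 0 0 0 0 ω ∧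
      ¬ E (bx n (zt n r t)) (n - r) 0 0 0 0 ω) ∨ E (bx n (zt n r t)) (n - r) 0 0 0 0 ω) =
      Pr p (E (bx n (zt n r t)) n 0 0 0 0) := by
    refine Pr_congr fun ω => ?_
    have : E (bx n (zt n r t)) (n - r) 0 0 0 0 ω → E (bx n (zt n r t)) n 0 0 0 0 ω :=
      fun h => V_le (Nat.sub_le n r) h
    tauto
  have h5 : Pr p (fun ω : Bx n → Bool => (E (bx n (zt n r t)) n 0 0 0 0 ω ∧
      ¬ E (bx n (zt n r t)) (n - r) 0 0 0 0 ω) ∧ E (bx n (zt n r t)) (n - r) 0 0 0 0 ω) = 0 := by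
    have : Pr p (fun ω : Bx n → Bool => (E (bx n (zt n r t)) n 0 0 0 0 ω ∧
      ¬ E (bx n (zt n r t)) (n - r) 0 0 0 0 ω) ∧ E (bx n (zt n r t)) (n - r) 0 0 0 0 ω) =
      Pr p (fun ω : Bx n → Bool => ¬ True) := Pr_congr fun ω => by tauto
    rw [this, Pr_not, Pr_true, sub_self]
  rw [h4, h5, h1, h2] at h3
  linarith

lemma sum_powerset_eq' {ι : Type*} [Fintype ι] {p : ℝ} (X : Finset ι) (Q : Finset ι → Prop)
    (inst : DecidablePred Q) :
    ∑ S ∈ @Finset.filter _ Q inst X.powerset, p ^ S.card * (1 - p) ^ (X.card - S.card) =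
      Pr p fun ω : ι → Bool => Q (X.filter fun i => ω i = true) := by
  rw [← sum_powerset_eq]
  congr!

/-- the probability of a tiling -/
noncomputable def T (n : ℕ) (p : ℝ) : ℝ :=
  ∑ S ∈ (boxes n).powerset.filter (fun S => ∃ R ⊆ S, Tiles R),
    p ^ S.card * (1 - p) ^ ((boxes n).card - S.card)

theorem T_eq (n : ℕ) (p : ℝ) : T n p = Pr p fun ω : Bx n → Bool =>
    ∃ R ⊆ (boxes n).filter (fun i => ω i = true), Tiles R := by
  exact sum_powerset_eq' (boxes n) (fun S => ∃ R ⊆ S, Tiles R) _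

theorem T_nonneg {p : ℝ} (h0 : 0 ≤ p) (h1 : p ≤ 1) (n : ℕ) : 0 ≤ T n p := by
  rw [T_eq]
  exact Pr_nonneg h0 h1 _

theorem T_le {p : ℝ} (h0 : 0 ≤ p) (h1 : p ≤ 1) {n r : ℕ} (hr : r ≤ n) :
    T n p ≤ s p (n - r) ^ 2 ^ r + 2 ^ r * (s p n - s p (n - r)) := by
  rw [T_eq]
  have h2 : Pr p (fun ω : Bx n → Bool => ∃ R ⊆ (boxes n).filter (fun i => ω i = true), Tiles R) ≤
      Pr p (fun ω : Bx n → Bool => (∀ t < 2 ^ r, E (bx n (zt n r t)) (n - r) 0 0 0 0 ω) ∨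
        ∃ t ∈ range (2 ^ r), E (bx n (zt n r t)) n 0 0 0 0 ω ∧
          ¬ E (bx n (zt n r t)) (n - r) 0 0 0 0 ω) := by
    refine Pr_mono h0 h1 fun ω hω => ?_
    have h3 : ∀ t < 2 ^ r, E (bx n (zt n r t)) n 0 0 0 0 ω := by
      intro t ht
      have := V_of_tiles (zt_lt hr ht) (filter_subset _ _) hω
      have h6 : ∀ q : Rc, bx n (zt n r t) q ∈ (boxes n).filter (fun i => ω i = true) →
          ω (bx n (zt n r t) q) = true := fun q hq => (mem_filter.1 hq).2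
      exact V_mono h6 this
    by_cases h4 : ∀ t < 2 ^ r, E (bx n (zt n r t)) (n - r) 0 0 0 0 ω
    · exact Or.inl h4
    · push Not at h4
      obtain ⟨t, ht, h5⟩ := h4
      exact Or.inr ⟨t, mem_range.2 ht, h3 t ht, h5⟩
  refine h2.trans ((Pr_or_le h0 h1 _ _).trans ?_)
  refine add_le_add (Pr_all p hr _ le_rfl).le ?_
  refine (Pr_exists_le h0 h1 (range (2 ^ r)) fun t (ω : Bx n → Bool) =>
    E (bx n (zt n r t)) n 0 0 0 0 ω ∧ ¬ E (bx n (zt n r t)) (n - r) 0 0 0 0 ω).trans ?_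
  rw [sum_congr rfl fun t ht => Pr_diff hr (mem_range.1 ht), sum_const, card_range, nsmul_eq_mul]
  push_cast
  exact le_rfl

/-- the tiling probability tends to zero as soon as the filling probabilities of the slices stay
below a constant smaller than one -/
theorem tendsto_zero_of_s_le {p c : ℝ} (h0 : 0 ≤ p) (h1 : p ≤ 1) (hc : c < 1)
    (hs : ∀ k, s p k ≤ c) : Tendsto (fun n => T n p) atTop (nhds 0) := by
  have hb : BddAbove (Set.range (s p)) := ⟨c, by rintro _ ⟨k, rfl⟩; exact hs k⟩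
  have hL := tendsto_atTop_ciSup (s_mono h0 h1) hb
  set L := ⨆ k, s p k
  have hc0 : 0 ≤ c := (s_nonneg h0 h1 0).trans (hs 0)
  have hlim : ∀ r : ℕ, Tendsto (fun n => c ^ 2 ^ r + 2 ^ r * (s p n - s p (n - r))) atTop
      (nhds (c ^ 2 ^ r + 2 ^ r * (L - L))) := by
    intro r
    exact (((hL.sub (hL.comp (tendsto_sub_atTop_nat r))).const_mul _)).const_add _
  rw [Metric.tendsto_atTop]
  intro ε hε
  obtain ⟨m, hm⟩ := exists_pow_lt_of_lt_one hε hc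
  have hcr : c ^ 2 ^ m < ε :=
    (pow_le_pow_of_le_one hc0 hc.le (Nat.lt_two_pow_self).le).trans_lt hm
  have h2 := hlim m
  rw [sub_self, mul_zero, add_zero] at h2
  have h3 := (h2.eventually_lt_const hcr).and (eventually_ge_atTop m)
  obtain ⟨N, hN⟩ := eventually_atTop.1 h3
  refine ⟨N, fun n hn => ?_⟩
  obtain ⟨h4, h5⟩ := hN n hn
  rw [Real.dist_eq, sub_zero, abs_of_nonneg (T_nonneg h0 h1 n)]
  refine (T_le h0 h1 h5).trans_lt (lt_of_le_of_lt ?_ h4)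
  have := pow_le_pow_left₀ (s_nonneg h0 h1 (n - m)) (hs (n - m)) (2 ^ m)
  linarith

theorem main {p : ℝ} (h0 : 0 ≤ p) (hp : p ≤ 5 / 32) :
    Tendsto (fun n => T n p) atTop (nhds 0) :=
  tendsto_zero_of_s_le h0 (by linarith) (by norm_num : (1 / 3 : ℝ) < 1) (s_le h0 hp)

end Pool.Agent.helper17.Dya
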