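import Pool.Agent.helper17.Dya.Slice

set_option autoImplicit false

/-!
# Slices of three-dimensional dyadic tilings
-/

namespace Pool.Agent.helper17.Dya

open Finset
open scoped Classical

/-- the type of the boxes (levels and positions) -/
abbrev Bx (n : ℕ) : Type := (Fin 3 → Fin (n + 1)) × (Fin 3 → Fin (2 ^ n))

/-- the dyadic boxes of order `n` -/
noncomputable def boxes (n : ℕ) : Finset (Bx n) :=
  univ.filter fun b => ∑ i, (b.1 i : ℕ) = n ∧ ∀ i, (b.2 i : ℕ) < 2 ^ (b.1 i : ℕ)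

/-- the subfamily `R` is a tiling -/
def Tiles {n : ℕ} (R : Finset (Bx n)) : Prop := ∀ c : Fin 3 → Fin (2 ^ n),
  ∃! b, b ∈ R ∧ ∀ i, (c i : ℕ) / 2 ^ (n - (b.1 i : ℕ)) = (b.2 i : ℕ)

/-- the box above the rectangle `q` which meets the slice `z` -/
noncomputable def bx (n z : ℕ) (q : Rc) : Bx n :=
  (![Fin.ofNat (n + 1) q.1, Fin.ofNat (n + 1) q.2.2.1, Fin.ofNat (n + 1) (n - (q.1 + q.2.2.1))],
    ![Fin.ofNat (2 ^ n) q.2.1, Fin.ofNat (2 ^ n) q.2.2.2,
      Fin.ofNat (2 ^ n) (z / 2 ^ (q.1 + q.2.2.1))])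

lemma bx_vals {n z : ℕ} {q : Rc} (hq : q ∈ G n) (hz : z < 2 ^ n) :
    ((bx n z q).1 0 : ℕ) = q.1 ∧ ((bx n z q).1 1 : ℕ) = q.2.2.1 ∧
      ((bx n z q).1 2 : ℕ) = n - (q.1 + q.2.2.1) ∧
    ((bx n z q).2 0 : ℕ) = q.2.1 ∧ ((bx n z q).2 1 : ℕ) = q.2.2.2 ∧
      ((bx n z q).2 2 : ℕ) = z / 2 ^ (q.1 + q.2.2.1) := by
  obtain ⟨h1, h2, h3⟩ := hq
  have h4 : 2 ^ q.1 ≤ 2 ^ n := Nat.pow_le_pow_right (by norm_num) (by omega)
  have h5 : 2 ^ q.2.2.1 ≤ 2 ^ n := Nat.pow_le_pow_right (by norm_num) (by omega)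
  refine ⟨?_, ?_, ?_, ?_, ?_, ?_⟩
  · exact Nat.mod_eq_of_lt (by omega)
  · exact Nat.mod_eq_of_lt (by omega)
  · exact Nat.mod_eq_of_lt (by omega)
  · exact Nat.mod_eq_of_lt (by omega)
  · exact Nat.mod_eq_of_lt (by omega)
  · exact Nat.mod_eq_of_lt ((Nat.div_le_self _ _).trans_lt hz)

lemma bx_inj {n z : ℕ} (hz : z < 2 ^ n) : Set.InjOn (bx n z) (G n) := by
  intro q hq q' hq' h
  obtain ⟨a1, a2, a3, a4, a5, a6⟩ := bx_vals hq hz
  obtain ⟨b1, b2, b3, b4, b5, b6⟩ := bx_vals hq' hz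
  rw [← h] at b1 b2 b4 b5
  obtain ⟨i, a, j, b⟩ := q
  obtain ⟨i', a', j', b'⟩ := q'
  simp only at a1 a2 a4 a5 b1 b2 b4 b5
  rw [Prod.mk.injEq, Prod.mk.injEq, Prod.mk.injEq]
  exact ⟨a1.symm.trans b1, a4.symm.trans b4, a2.symm.trans b2, a5.symm.trans b5⟩

/-- the coordinates of a cell -/
def cell {n : ℕ} (x y z : ℕ) (hx : x < 2 ^ n) (hy : y < 2 ^ n) (hz : z < 2 ^ n) :
    Fin 3 → Fin (2 ^ n) := ![⟨x, hx⟩, ⟨y, hy⟩, ⟨z, hz⟩]

/-- the box `b` meets the slice `z` above the cell `(x, y)` -/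
def Cov {n : ℕ} (b : Bx n) (x y z : ℕ) : Prop :=
  x / 2 ^ (n - (b.1 0 : ℕ)) = (b.2 0 : ℕ) ∧ y / 2 ^ (n - (b.1 1 : ℕ)) = (b.2 1 : ℕ) ∧
    z / 2 ^ (n - (b.1 2 : ℕ)) = (b.2 2 : ℕ)

lemma tiles_cov {n : ℕ} {R : Finset (Bx n)} (hR : Tiles R) {x y z : ℕ} (hx : x < 2 ^ n)
    (hy : y < 2 ^ n) (hz : z < 2 ^ n) : ∃! b, b ∈ R ∧ Cov b x y z := by
  obtain ⟨b, ⟨hb, hc⟩, hu⟩ := hR (cell x y z hx hy hz)
  refine ⟨b, ⟨hb, hc 0, hc 1, hc 2⟩, ?_⟩
  rintro b' ⟨hb', h0, h1, h2⟩
  refine hu b' ⟨hb', fun i => ?_⟩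
  fin_cases i
  · exact h0
  · exact h1
  · exact h2

/-- the cell `x` is in the dyadic interval `(i, a)` -/
def In (n i a x : ℕ) : Prop := x < 2 ^ n ∧ x / 2 ^ (n - i) = a

/-- the rectangle is covered in the slice `z` by boxes of `R` inside of it -/
def Fil {n : ℕ} (R : Finset (Bx n)) (z i a j b : ℕ) : Prop :=
  ∀ x y, In n i a x → In n j b y → ∃ t ∈ R, Cov t x y z ∧ i ≤ (t.1 0 : ℕ) ∧ j ≤ (t.1 1 : ℕ)

lemma exists_In {n i a : ℕ} (hi : i ≤ n) (ha : a < 2 ^ i) : ∃ x, In n i a x := by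
  refine ⟨a * 2 ^ (n - i), ?_, ?_⟩
  · calc a * 2 ^ (n - i) < 2 ^ i * 2 ^ (n - i) := Nat.mul_lt_mul_of_pos_right ha (by positivity)
      _ = 2 ^ n := by rw [← pow_add]; congr 1; omega
  · exact Nat.mul_div_cancel _ (by positivity)

/-- a finer dyadic interval containing a cell of a coarser one is inside of it -/
lemma In_coarse {n i i' a x : ℕ} (hi : i ≤ i') (hn : i' ≤ n) (h : In n i a x) :
    x / 2 ^ (n - i') / 2 ^ (i' - i) = a := by
  rw [Nat.div_div_eq_div_mul, ← pow_add, show n - i' + (i' - i) = n - i by omega]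
  exact h.2

/-- cells of the halves -/
lemma In_half {n i c x : ℕ} (hn : i + 1 ≤ n) (h : In n (i + 1) c x) : In n i (c / 2) x := by
  refine ⟨h.1, ?_⟩
  rw [← h.2, Nat.div_div_eq_div_mul, ← pow_succ]
  congr 2
  omega

theorem V_of_Fil {n z : ℕ} (hz : z < 2 ^ n) {R S : Finset (Bx n)} (hRS : R ⊆ S)
    (hS : S ⊆ boxes n) (hR : Tiles R) :
    ∀ k i a j b : ℕ, a < 2 ^ i → b < 2 ^ j → i + j + k = n → Fil R z i a j b →
      V (fun q => bx n z q ∈ S) k i a j b := by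
  -- a box of `R` over the rectangle with the same levels
  have key : ∀ i a j b : ℕ, a < 2 ^ i → b < 2 ^ j → i + j ≤ n → ∀ t ∈ R, ∀ x y, In n i a x →
      In n j b y → Cov t x y z → (t.1 0 : ℕ) = i → (t.1 1 : ℕ) = j → bx n z (i, a, j, b) ∈ S := by
    intro i a j b ha hb hij t ht x y hx hy hc h0 h1
    have hG : (i, a, j, b) ∈ G n := ⟨hij, ha, hb⟩
    obtain ⟨a1, a2, a3, a4, a5, a6⟩ := bx_vals hG hz
    simp only at a1 a2 a3 a4 a5 a6
    have hsum := (mem_filter.1 (hS (hRS ht))).2.1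
    rw [Fin.sum_univ_three, h0, h1] at hsum
    have h2 : (t.1 2 : ℕ) = n - (i + j) := by omega
    obtain ⟨c0, c1, c2⟩ := hc
    rw [h0, hx.2] at c0
    rw [h1, hy.2] at c1
    rw [h2, show n - (n - (i + j)) = i + j by omega] at c2
    have : bx n z (i, a, j, b) = t := by
      apply Prod.ext
      · funext l
        apply Fin.ext
        fin_cases l
        · exact a1.trans h0.symm
        · exact a2.trans h1.symm
        · exact a3.trans h2.symm
      · funext l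
        apply Fin.ext
        fin_cases l
        · exact a4.trans c0
        · exact a5.trans c1
        · exact a6.trans c2
    rw [this]
    exact hRS ht
  intro k
  induction k with
  | zero =>
    intro i a j b ha hb hn hF
    obtain ⟨x, hx⟩ := exists_In (n := n) (i := i) (by omega) ha
    obtain ⟨y, hy⟩ := exists_In (n := n) (i := j) (by omega) hb
    obtain ⟨t, ht, hc, h0, h1⟩ := hF x y hx hy
    have hsum := (mem_filter.1 (hS (hRS ht))).2.1
    rw [Fin.sum_univ_three] at hsum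
    exact key i a j b ha hb (by omega) t ht x y hx hy hc (by omega) (by omega)
  | succ k ih =>
    intro i a j b ha hb hn hF
    rw [V]
    by_cases hex : ∃ x y, In n i a x ∧ In n j b y ∧ ∃ t ∈ R, Cov t x y z ∧
        (t.1 0 : ℕ) = i ∧ (t.1 1 : ℕ) = j
    · obtain ⟨x, y, hx, hy, t, ht, hc, h0, h1⟩ := hex
      exact Or.inl (key i a j b ha hb (by omega) t ht x y hx hy hc h0 h1)
    · right
      have ha0 : 2 * a < 2 ^ (i + 1) := by rw [pow_succ]; omega
      have ha1 : 2 * a + 1 < 2 ^ (i + 1) := by rw [pow_succ]; omega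
      have hb0 : 2 * b < 2 ^ (j + 1) := by rw [pow_succ]; omega
      have hb1 : 2 * b + 1 < 2 ^ (j + 1) := by rw [pow_succ]; omega
      by_cases hx' : ∃ x y, In n i a x ∧ In n j b y ∧ ∃ t ∈ R, Cov t x y z ∧
          (t.1 0 : ℕ) = i ∧ j ≤ (t.1 1 : ℕ)
      · -- a box of full width: no box of full height
        right
        obtain ⟨x, y, hx, hy, t, ht, hc, h0, h1⟩ := hx'
        have hfull : ∀ x' y', In n i a x' → In n j b y' → ∃ t' ∈ R, Cov t' x' y' z ∧
            i ≤ (t'.1 0 : ℕ) ∧ j + 1 ≤ (t'.1 1 : ℕ) := by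
          intro x' y' hx' hy'
          obtain ⟨t', ht', hc', h0', h1'⟩ := hF x' y' hx' hy'
          refine ⟨t', ht', hc', h0', ?_⟩
          by_contra hcon
          have h1'' : (t'.1 1 : ℕ) = j := by omega
          -- both boxes contain the cell `(x', y)`
          have hu := tiles_cov hR hx'.1 hy.1 hz
          have e1 : Cov t x' y z := by
            refine ⟨?_, hc.2.1, hc.2.2⟩
            rw [h0, hx'.2, ← hx.2, ← h0]
            exact hc.1
          have e2 : Cov t' x' y z := by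
            refine ⟨hc'.1, ?_, hc'.2.2⟩
            rw [h1'', hy.2, ← hy'.2, ← h1'']
            exact hc'.2.1
          have e3 : t = t' := hu.unique ⟨ht, e1⟩ ⟨ht', e2⟩
          exact hex ⟨x, y, hx, hy, t, ht, hc, h0, by rw [e3]; exact h1''⟩
        constructor
        · refine ih i a (j + 1) (2 * b) ha hb0 (by omega) fun x' y' hx' hy' => ?_
          have hy2 := In_half (by omega) hy'
          rw [half0] at hy2
          exact hfull x' y' hx' hy2
        · refine ih i a (j + 1) (2 * b + 1) ha hb1 (by omega) fun x' y' hx' hy' => ?_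
          have hy2 := In_half (by omega) hy'
          rw [half1] at hy2
          exact hfull x' y' hx' hy2
      · -- no box of full width
        left
        have hfull : ∀ x' y', In n i a x' → In n j b y' → ∃ t' ∈ R, Cov t' x' y' z ∧
            i + 1 ≤ (t'.1 0 : ℕ) ∧ j ≤ (t'.1 1 : ℕ) := by
          intro x y hx hy
          obtain ⟨t', ht', hc', h0', h1'⟩ := hF x y hx hy
          refine ⟨t', ht', hc', ?_, h1'⟩
          by_contra hcon
          exact hx' ⟨x, y, hx, hy, t', ht', hc', by omega, h1'⟩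
        constructor
        · refine ih (i + 1) (2 * a) j b ha0 hb (by omega) fun x' y' hx' hy' => ?_
          have hx2 := In_half (by omega) hx'
          rw [half0] at hx2
          exact hfull x' y' hx2 hy'
        · refine ih (i + 1) (2 * a + 1) j b ha1 hb (by omega) fun x' y' hx' hy' => ?_
          have hx2 := In_half (by omega) hx'
          rw [half1] at hx2
          exact hfull x' y' hx2 hy'

/-- every slice of a tiling can be filled -/
theorem V_of_tiles {n z : ℕ} (hz : z < 2 ^ n) {S : Finset (Bx n)} (hS : S ⊆ boxes n)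
    (h : ∃ R ⊆ S, Tiles R) : V (fun q => bx n z q ∈ S) n 0 0 0 0 := by
  obtain ⟨R, hRS, hR⟩ := h
  refine V_of_Fil hz hRS hS hR n 0 0 0 0 (by norm_num) (by norm_num) (by omega) ?_
  intro x y hx hy
  obtain ⟨t, ⟨ht, hc⟩, -⟩ := tiles_cov hR hx.1 hy.1 hz
  exact ⟨t, ht, hc, Nat.zero_le _, Nat.zero_le _⟩

end Pool.Agent.helper17.Dya
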