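import Mathlib

set_option autoImplicit false

/-!
# Finite product Bernoulli probabilities

`Pr p E` is the probability of the event `E` for independent bits `ω i`, each `true` with
probability `p`.
-/

namespace Pool.Agent.helper17.Dya

open Finset
open scoped Classical

/-- weight of a bit -/
noncomputable def wb (p : ℝ) (b : Bool) : ℝ := if b then p else 1 - p

section

variable {ι κ : Type*} [Fintype ι] [Fintype κ]

/-- weight of a configuration -/
noncomputable def wt (p : ℝ) (ω : ι → Bool) : ℝ := ∏ i, wb p (ω i)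

/-- expectation -/
noncomputable def Ev (p : ℝ) (f : (ι → Bool) → ℝ) : ℝ := ∑ ω, wt p ω * f ω

/-- probability -/
noncomputable def Pr (p : ℝ) (E : (ι → Bool) → Prop) : ℝ := Ev p fun ω => if E ω then 1 else 0

variable {p : ℝ}

lemma Pr_eq (E : (ι → Bool) → Prop) : Pr p E = ∑ ω, wt p ω * (if E ω then 1 else 0) := rfl

lemma sum_wb (p : ℝ) : ∑ b : Bool, wb p b = 1 := by
  rw [Fintype.sum_bool]
  simp [wb]

lemma sum_prod (h : ι → Bool → ℝ) : ∑ ω : ι → Bool, ∏ i, h i (ω i) = ∏ i, ∑ b : Bool, h i b := by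
  rw [Finset.prod_univ_sum, Fintype.piFinset_univ]

lemma sum_wt (p : ℝ) : ∑ ω : ι → Bool, wt p ω = 1 := by
  unfold wt
  rw [sum_prod fun _ b => wb p b, prod_congr rfl fun i _ => sum_wb p, prod_const_one]

lemma wb_nonneg (h0 : 0 ≤ p) (h1 : p ≤ 1) (b : Bool) : 0 ≤ wb p b := by
  unfold wb
  split_ifs <;> linarith

lemma wt_nonneg (h0 : 0 ≤ p) (h1 : p ≤ 1) (ω : ι → Bool) : 0 ≤ wt p ω :=
  prod_nonneg fun _ _ => wb_nonneg h0 h1 _

lemma Ev_one : Ev p (fun _ : ι → Bool => 1) = 1 := by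
  unfold Ev
  simp only [mul_one]
  exact sum_wt p

lemma Ev_mono (h0 : 0 ≤ p) (h1 : p ≤ 1) {f g : (ι → Bool) → ℝ} (h : ∀ ω, f ω ≤ g ω) :
    Ev p f ≤ Ev p g :=
  sum_le_sum fun ω _ => mul_le_mul_of_nonneg_left (h ω) (wt_nonneg h0 h1 ω)

lemma Ev_add (f g : (ι → Bool) → ℝ) : Ev p (fun ω => f ω + g ω) = Ev p f + Ev p g := by
  unfold Ev
  rw [← sum_add_distrib]
  exact sum_congr rfl fun _ _ => by ring

lemma Ev_sub (f g : (ι → Bool) → ℝ) : Ev p (fun ω => f ω - g ω) = Ev p f - Ev p g := by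
  unfold Ev
  rw [← sum_sub_distrib]
  exact sum_congr rfl fun _ _ => by ring

lemma Pr_mono (h0 : 0 ≤ p) (h1 : p ≤ 1) {E F : (ι → Bool) → Prop} (h : ∀ ω, E ω → F ω) :
    Pr p E ≤ Pr p F := by
  refine Ev_mono h0 h1 fun ω => ?_
  by_cases hE : E ω
  · rw [if_pos hE, if_pos (h ω hE)]
  · rw [if_neg hE]
    split_ifs <;> norm_num

lemma Pr_congr {E F : (ι → Bool) → Prop} (h : ∀ ω, E ω ↔ F ω) : Pr p E = Pr p F := by
  have : E = F := funext fun ω => propext (h ω)
  rw [this]

lemma Pr_nonneg (h0 : 0 ≤ p) (h1 : p ≤ 1) (E : (ι → Bool) → Prop) : 0 ≤ Pr p E := by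
  rw [Pr_eq]
  exact sum_nonneg fun ω _ => mul_nonneg (wt_nonneg h0 h1 ω) (by split_ifs <;> norm_num)

lemma Pr_true : Pr p (fun _ : ι → Bool => True) = 1 := by
  have h : Pr p (fun _ : ι → Bool => True) = Ev p (fun _ : ι → Bool => 1) := by
    unfold Pr
    simp only [if_true]
  rw [h, Ev_one]

lemma Pr_le_one (h0 : 0 ≤ p) (h1 : p ≤ 1) (E : (ι → Bool) → Prop) : Pr p E ≤ 1 := by
  have h : Pr p E ≤ Pr p (fun _ : ι → Bool => True) := Pr_mono h0 h1 fun _ _ => trivial
  rwa [Pr_true] at h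

lemma Pr_not (E : (ι → Bool) → Prop) : Pr p (fun ω => ¬ E ω) = 1 - Pr p E := by
  have h : Pr p (fun ω => ¬ E ω) = Ev p (fun _ : ι → Bool => 1) - Pr p E := by
    unfold Pr
    rw [← Ev_sub]
    congr 1
    funext ω
    by_cases h : E ω <;> simp [h]
  rw [h, Ev_one]

lemma Pr_or_le (h0 : 0 ≤ p) (h1 : p ≤ 1) (E F : (ι → Bool) → Prop) :
    Pr p (fun ω => E ω ∨ F ω) ≤ Pr p E + Pr p F := by
  unfold Pr
  rw [← Ev_add]
  refine Ev_mono h0 h1 fun ω => ?_
  by_cases hE : E ω <;> by_cases hF : F ω <;> simp [hE, hF]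

lemma Pr_exists_le (h0 : 0 ≤ p) (h1 : p ≤ 1) {α : Type*} (s : Finset α)
    (E : α → (ι → Bool) → Prop) : Pr p (fun ω => ∃ a ∈ s, E a ω) ≤ ∑ a ∈ s, Pr p (E a) := by
  induction s using Finset.induction_on with
  | empty =>
    rw [sum_empty]
    unfold Pr Ev
    simp
  | insert a s ha ih =>
    rw [sum_insert ha]
    refine (Pr_mono h0 h1 (F := fun ω => E a ω ∨ ∃ b ∈ s, E b ω) fun ω h => ?_).trans
      ((Pr_or_le h0 h1 _ _).trans (by linarith))
    obtain ⟨b, hb, h⟩ := h
    rcases mem_insert.1 hb with rfl | hb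
    · exact Or.inl h
    · exact Or.inr ⟨b, hb, h⟩

/-- the event depends only on the coordinates in `A` -/
def Dep (A : Set ι) (E : (ι → Bool) → Prop) : Prop :=
  ∀ ω ω' : ι → Bool, (∀ i ∈ A, ω i = ω' i) → (E ω ↔ E ω')

omit [Fintype ι] in
lemma Dep.mono {A B : Set ι} {E : (ι → Bool) → Prop} (h : Dep A E) (hAB : A ⊆ B) : Dep B E :=
  fun ω ω' hω => h ω ω' fun i hi => hω i (hAB hi)

omit [Fintype ι] in
lemma Dep.not {A : Set ι} {E : (ι → Bool) → Prop} (h : Dep A E) : Dep A fun ω => ¬ E ω :=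
  fun ω ω' hω => not_congr (h ω ω' hω)

omit [Fintype ι] in
lemma Dep.and {A : Set ι} {E F : (ι → Bool) → Prop} (h : Dep A E) (h' : Dep A F) :
    Dep A fun ω => E ω ∧ F ω := fun ω ω' hω => and_congr (h ω ω' hω) (h' ω ω' hω)

omit [Fintype ι] in
lemma Dep.or {A : Set ι} {E F : (ι → Bool) → Prop} (h : Dep A E) (h' : Dep A F) :
    Dep A fun ω => E ω ∨ F ω := fun ω ω' hω => or_congr (h ω ω' hω) (h' ω ω' hω)

/-- exchange of the coordinates outside `A` -/
noncomputable def swp (A : Set ι) (q : (ι → Bool) × (ι → Bool)) : (ι → Bool) × (ι → Bool) :=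
  (fun i => if i ∈ A then q.1 i else q.2 i, fun i => if i ∈ A then q.2 i else q.1 i)

omit [Fintype ι] in
lemma swp_swp (A : Set ι) (q : (ι → Bool) × (ι → Bool)) : swp A (swp A q) = q := by
  unfold swp
  ext i <;> by_cases h : i ∈ A <;> simp [h]

lemma wt_swp (A : Set ι) (q : (ι → Bool) × (ι → Bool)) :
    wt p (swp A q).1 * wt p (swp A q).2 = wt p q.1 * wt p q.2 := by
  unfold wt swp
  rw [← prod_mul_distrib, ← prod_mul_distrib]
  refine prod_congr rfl fun i _ => ?_
  by_cases h : i ∈ A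
  · simp [h]
  · simp [h, mul_comm]

/-- independence -/
lemma Pr_and {A B : Set ι} {E F : (ι → Bool) → Prop} (hE : Dep A E) (hF : Dep B F)
    (hAB : ∀ i ∈ A, i ∉ B) : Pr p (fun ω => E ω ∧ F ω) = Pr p E * Pr p F := by
  have h1 : Pr p E * Pr p F = ∑ q : (ι → Bool) × (ι → Bool),
      wt p q.1 * wt p q.2 * ((if E q.1 then 1 else 0) * (if F q.2 then 1 else 0)) := by
    unfold Pr Ev
    rw [sum_mul_sum, ← sum_product', univ_product_univ]
    exact sum_congr rfl fun q _ => by ring
  have h2 : ∑ q : (ι → Bool) × (ι → Bool),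
      wt p q.1 * wt p q.2 * ((if E q.1 then (1 : ℝ) else 0) * (if F q.2 then 1 else 0)) =
      ∑ q : (ι → Bool) × (ι → Bool),
      wt p q.1 * wt p q.2 * (if E q.1 ∧ F q.1 then 1 else 0) := by
    refine Finset.sum_nbij' (swp A) (swp A) (fun _ _ => mem_univ _) (fun _ _ => mem_univ _)
      (fun q _ => swp_swp A q) (fun q _ => swp_swp A q) fun q _ => ?_
    rw [wt_swp]
    congr 1
    have e1 : E (swp A q).1 ↔ E q.1 := by
      refine hE _ _ fun i hi => ?_
      simp [swp, hi]
    have e2 : F (swp A q).1 ↔ F q.2 := by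
      refine hF _ _ fun i hi => ?_
      have : i ∉ A := fun h => hAB i h hi
      simp [swp, this]
    rw [e1, e2]
    by_cases h3 : E q.1 <;> by_cases h4 : F q.2 <;> simp [h3, h4]
  rw [h1, h2, ← univ_product_univ, sum_product]
  rw [Pr_eq]
  refine sum_congr rfl fun ω _ => ?_
  symm
  change ∑ y : ι → Bool, wt p ω * wt p y * (if E ω ∧ F ω then (1 : ℝ) else 0) = _
  rw [← sum_mul, ← mul_sum, sum_wt, mul_one]
  congr

/-- Harris' inequality -/
lemma harris (h0 : 0 ≤ p) (h1 : p ≤ 1) {E F : (ι → Bool) → Prop}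
    (hE : ∀ ω ω', ω ≤ ω' → E ω → E ω') (hF : ∀ ω ω', ω ≤ ω' → F ω → F ω') :
    Pr p E * Pr p F ≤ Pr p fun ω => E ω ∧ F ω := by
  have h := fkg (α := ι → Bool) (μ := fun ω => wt p ω)
    (f := fun ω => if E ω then 1 else 0) (g := fun ω => if F ω then 1 else 0)
    (fun ω => wt_nonneg h0 h1 _) (fun ω => by simp only [Pi.zero_apply]; split_ifs <;> norm_num)
    (fun ω => by simp only [Pi.zero_apply]; split_ifs <;> norm_num)
    (fun ω ω' hω => by
      by_cases h : E ω
      · simp [h, hE _ _ hω h]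
      · simp only [h, if_false]
        split_ifs <;> norm_num)
    (fun ω ω' hω => by
      by_cases h : F ω
      · simp [h, hF _ _ hω h]
      · simp only [h, if_false]
        split_ifs <;> norm_num)
    (fun a b => by
      refine le_of_eq ?_
      simp only [wt]
      rw [← prod_mul_distrib, ← prod_mul_distrib]
      refine prod_congr rfl fun i _ => ?_
      simp only [Pi.sup_apply, Pi.inf_apply]
      cases a i <;> cases b i <;> simp [mul_comm])
  rw [sum_wt, one_mul] at h
  rw [Pr_eq, Pr_eq, Pr_eq]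
  refine h.trans_eq ?_
  refine sum_congr rfl fun a _ => ?_
  by_cases h3 : E a <;> by_cases h4 : F a <;> simp [h3, h4]

lemma Pr_or (E F : (ι → Bool) → Prop) :
    Pr p (fun ω => E ω ∨ F ω) = Pr p E + Pr p F - Pr p (fun ω => E ω ∧ F ω) := by
  unfold Pr
  rw [← Ev_add, ← Ev_sub]
  congr 1
  funext ω
  by_cases hE : E ω <;> by_cases hF : F ω <;> simp [hE, hF]

lemma Pr_or_le_harris (h0 : 0 ≤ p) (h1 : p ≤ 1) {E F : (ι → Bool) → Prop}
    (hE : ∀ ω ω', ω ≤ ω' → E ω → E ω') (hF : ∀ ω ω', ω ≤ ω' → F ω → F ω') :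
    Pr p (fun ω => E ω ∨ F ω) ≤ 1 - (1 - Pr p E) * (1 - Pr p F) := by
  rw [Pr_or]
  have := harris h0 h1 hE hF
  nlinarith

/-- cylinders -/
lemma Pr_cyl (X : Finset ι) (σ : ι → Bool) :
    Pr p (fun ω : ι → Bool => ∀ i ∈ X, ω i = σ i) = ∏ i ∈ X, wb p (σ i) := by
  rw [Pr_eq]
  have h1 : ∀ ω : ι → Bool, (wt p ω * if ∀ i ∈ X, ω i = σ i then (1 : ℝ) else 0) =
      ∏ i, (wb p (ω i) * if i ∈ X → ω i = σ i then 1 else 0) := by
    intro ω
    rw [prod_mul_distrib, Finset.prod_ite_zero]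
    by_cases h : ∀ i ∈ X, ω i = σ i
    · rw [if_pos h, if_pos (fun i _ => h i)]
      simp [wt]
    · rw [if_neg h, if_neg (fun h' => h fun i => h' i (mem_univ i)), mul_zero, mul_zero]
  have h0 : ∑ ω : ι → Bool, (wt p ω * if ∀ i ∈ X, ω i = σ i then (1 : ℝ) else 0) =
      ∑ ω : ι → Bool, ∏ i, (wb p (ω i) * if i ∈ X → ω i = σ i then 1 else 0) :=
    sum_congr rfl fun ω _ => h1 ω
  refine Eq.trans ?_ (h0.trans ?_)
  · exact sum_congr rfl fun ω _ => by congr
  rw [sum_prod fun i b => wb p b * if i ∈ X → b = σ i then 1 else 0]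
  have h2 : ∀ i, ∑ b : Bool, wb p b * (if i ∈ X → b = σ i then (1 : ℝ) else 0) =
      if i ∈ X then wb p (σ i) else 1 := by
    intro i
    by_cases hi : i ∈ X
    · simp [hi]
    · simp only [hi, false_imp_iff, if_true, mul_one, if_false]
      exact sum_wb p
  rw [prod_congr rfl fun i _ => h2 i]
  rw [Finset.prod_ite_mem, univ_inter]

lemma Pr_coord (i : ι) : Pr p (fun ω : ι → Bool => ω i = true) = p := by
  have h := Pr_cyl (p := p) {i} (fun _ => true)
  simp only [mem_singleton, forall_eq, prod_singleton] at h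
  rw [h]
  rfl

/-- relabelling -/
lemma Ev_comp (φ : κ → ι) (hφ : Function.Injective φ) (f : (κ → Bool) → ℝ) :
    Ev p (fun ω => f (fun j => ω (φ j))) = Ev p f := by
  have h1 : Ev p (fun ω => f (fun j => ω (φ j))) =
      ∑ σ : κ → Bool, ∑ ω ∈ univ.filter (fun ω : ι → Bool => (fun j => ω (φ j)) = σ),
        wt p ω * f (fun j => ω (φ j)) := by
    rw [sum_fiberwise]
    rfl
  rw [h1]
  unfold Ev
  refine sum_congr rfl fun σ _ => ?_
  have h2 : ∑ ω ∈ univ.filter (fun ω : ι → Bool => (fun j => ω (φ j)) = σ),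
      wt p ω * f (fun j => ω (φ j)) =
      (∑ ω ∈ univ.filter (fun ω : ι → Bool => (fun j => ω (φ j)) = σ), wt p ω) * f σ := by
    rw [sum_mul]
    refine sum_congr rfl fun ω hω => ?_
    rw [(mem_filter.1 hω).2]
  rw [h2]
  congr 1
  rcases isEmpty_or_nonempty κ with hκ | hκ
  · have h3 : univ.filter (fun ω : ι → Bool => (fun j => ω (φ j)) = σ) = univ := by
      rw [filter_true_of_mem]
      intro ω _
      funext j
      exact isEmptyElim j
    rw [h3, sum_wt]
    simp [wt]
  · have h3 := Pr_cyl (p := p) (univ.image φ) (fun i => σ (Function.invFun φ i))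
    rw [prod_image fun a _ b _ hab => hφ hab] at h3
    have h4 : ∏ x, wb p (σ (Function.invFun φ (φ x))) = wt p σ := by
      unfold wt
      refine prod_congr rfl fun x _ => ?_
      rw [Function.leftInverse_invFun hφ x]
    rw [h4] at h3
    rw [← h3, Pr_eq, sum_filter]
    refine sum_congr rfl fun ω _ => ?_
    rw [mul_ite, mul_one, mul_zero]
    congr 1
    apply propext
    constructor
    · intro h i hi
      obtain ⟨j, -, rfl⟩ := mem_image.1 hi
      rw [Function.leftInverse_invFun hφ j]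
      exact congrFun h j
    · intro h
      funext j
      have := h (φ j) (mem_image_of_mem φ (mem_univ j))
      rw [Function.leftInverse_invFun hφ j] at this
      exact this

lemma Pr_comp (φ : κ → ι) (hφ : Function.Injective φ) (E : (κ → Bool) → Prop) :
    Pr p (fun ω => E (fun j => ω (φ j))) = Pr p E :=
  Ev_comp φ hφ fun σ => if E σ then 1 else 0

/-- random subsets -/
lemma sum_powerset_eq (X : Finset ι) (Q : Finset ι → Prop) :
    ∑ S ∈ X.powerset.filter Q, p ^ S.card * (1 - p) ^ (X.card - S.card) =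
      Pr p fun ω : ι → Bool => Q (X.filter fun i => ω i = true) := by
  have h1 : Pr p (fun ω : ι → Bool => Q (X.filter fun i => ω i = true)) =
      ∑ S ∈ X.powerset, ∑ ω ∈ univ.filter
        (fun ω : ι → Bool => (X.filter fun i => ω i = true) = S),
        wt p ω * (if Q (X.filter fun i => ω i = true) then 1 else 0) := by
    rw [sum_fiberwise_of_maps_to]
    · rfl
    · intro ω _
      rw [mem_powerset]
      exact filter_subset _ _
  rw [h1, sum_filter]
  refine sum_congr rfl fun S hS => ?_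
  rw [mem_powerset] at hS
  have h2 : ∑ ω ∈ univ.filter (fun ω : ι → Bool => (X.filter fun i => ω i = true) = S),
      wt p ω * (if Q (X.filter fun i => ω i = true) then 1 else 0) =
      (∑ ω ∈ univ.filter (fun ω : ι → Bool => (X.filter fun i => ω i = true) = S), wt p ω) *
        if Q S then 1 else 0 := by
    rw [sum_mul]
    refine sum_congr rfl fun ω hω => ?_
    rw [(mem_filter.1 hω).2]
  have h3 : ∑ ω ∈ univ.filter (fun ω : ι → Bool => (X.filter fun i => ω i = true) = S), wt p ω =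
      p ^ S.card * (1 - p) ^ (X.card - S.card) := by
    have h4 := Pr_cyl (p := p) X (fun i => decide (i ∈ S))
    have h5 : ∏ i ∈ X, wb p (decide (i ∈ S)) = p ^ S.card * (1 - p) ^ (X.card - S.card) := by
      have h6 : ∀ i, wb p (decide (i ∈ S)) = if i ∈ S then p else 1 - p := by
        intro i
        by_cases hi : i ∈ S <;> simp [wb, hi]
      rw [prod_congr rfl fun i _ => h6 i, prod_ite, prod_const, prod_const, filter_mem_eq_inter,
        inter_eq_right.2 hS]
      congr 2
      have h7 : X.filter (fun i => i ∉ S) = X \ S := by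
        ext i
        simp
      rw [h7, card_sdiff_of_subset hS]
    rw [h5] at h4
    rw [← h4, Pr_eq, sum_filter]
    refine sum_congr rfl fun ω _ => ?_
    rw [mul_ite, mul_one, mul_zero]
    congr 1
    apply propext
    constructor
    · intro h i hi
      by_cases hiS : i ∈ S
      · rw [← h, mem_filter] at hiS
        rw [hiS.2]
        have : i ∈ S := by rw [← h, mem_filter]; exact hiS
        simp [this]
      · have : ¬ ω i = true := fun hw => hiS (by rw [← h, mem_filter]; exact ⟨hi, hw⟩)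
        simp [hiS, this]
    · intro h
      ext i
      rw [mem_filter]
      constructor
      · rintro ⟨hi, hw⟩
        have := h i hi
        rw [hw] at this
        simpa using this.symm
      · intro hi
        refine ⟨hS hi, ?_⟩
        rw [h i (hS hi)]
        simp [hi]
  rw [h2, h3]
  split_ifs
  · rw [mul_one]
  · rw [mul_zero]

end

end Pool.Agent.helper17.Dya
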