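import Pool.Agent.helper17.Dya.Prob

set_option autoImplicit false

/-!
# The two-dimensional process in a slice
-/

namespace Pool.Agent.helper17.Dya

open Finset
open scoped Classical

/-- a dyadic rectangle `(i, a, j, b)`: levels `i`, `j` and positions `a`, `b` -/
abbrev Rc := ℕ × ℕ × ℕ × ℕ

/-- the rectangle `(i, a, j, b)` can be filled by available rectangles inside of it, with orders at
most `i + j + k`, by successive halving -/
def V (ω : Rc → Prop) : ℕ → ℕ → ℕ → ℕ → ℕ → Prop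
  | 0, i, a, j, b => ω (i, a, j, b)
  | k + 1, i, a, j, b => ω (i, a, j, b) ∨
      (V ω k (i + 1) (2 * a) j b ∧ V ω k (i + 1) (2 * a + 1) j b) ∨
      (V ω k i a (j + 1) (2 * b) ∧ V ω k i a (j + 1) (2 * b + 1))

/-- the rectangles which matter for `V k i a j b` -/
def D (k i a j b : ℕ) : Set Rc := {q | i ≤ q.1 ∧ j ≤ q.2.2.1 ∧ q.1 + q.2.2.1 ≤ i + j + k ∧
  q.2.1 / 2 ^ (q.1 - i) = a ∧ q.2.2.2 / 2 ^ (q.2.2.1 - j) = b}

/-- the dyadic rectangles of order at most `n` -/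
def G (n : ℕ) : Set Rc := {q | q.1 + q.2.2.1 ≤ n ∧ q.2.1 < 2 ^ q.1 ∧ q.2.2.2 < 2 ^ q.2.2.1}

lemma div_half {x i i' c : ℕ} (hi : i + 1 ≤ i') (h : x / 2 ^ (i' - (i + 1)) = c) :
    x / 2 ^ (i' - i) = c / 2 := by
  rw [← h, Nat.div_div_eq_div_mul, ← pow_succ]
  congr 2
  omega

lemma D_sub_x {k i a j b c : ℕ} (hc : c / 2 = a) : D k (i + 1) c j b ⊆ D (k + 1) i a j b := by
  rintro q ⟨h1, h2, h3, h4, h5⟩
  refine ⟨by omega, h2, by omega, ?_, h5⟩
  rw [div_half h1 h4, hc]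

lemma D_sub_y {k i a j b c : ℕ} (hc : c / 2 = b) : D k i a (j + 1) c ⊆ D (k + 1) i a j b := by
  rintro q ⟨h1, h2, h3, h4, h5⟩
  refine ⟨h1, by omega, by omega, h4, ?_⟩
  rw [div_half h2 h5, hc]

lemma half0 (a : ℕ) : 2 * a / 2 = a := by omega
lemma half1 (a : ℕ) : (2 * a + 1) / 2 = a := by omega

lemma self_mem_D (k i a j b : ℕ) : (i, a, j, b) ∈ D k i a j b :=
  ⟨le_rfl, le_rfl, by simp, by simp, by simp⟩

lemma D_sub_G {n k i a j b : ℕ} (ha : a < 2 ^ i) (hb : b < 2 ^ j) (hn : i + j + k ≤ n) :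
    D k i a j b ⊆ G n := by
  rintro q ⟨h1, h2, h3, h4, h5⟩
  refine ⟨h3.trans hn, ?_, ?_⟩
  · rw [← h4, Nat.div_lt_iff_lt_mul (by positivity), ← pow_add] at ha
    rwa [show i + (q.1 - i) = q.1 by omega] at ha
  · rw [← h5, Nat.div_lt_iff_lt_mul (by positivity), ← pow_add] at hb
    rwa [show j + (q.2.2.1 - j) = q.2.2.1 by omega] at hb

lemma D_disj_x {k i a j b : ℕ} {q : Rc} (h : q ∈ D k (i + 1) (2 * a) j b) :
    q ∉ D k (i + 1) (2 * a + 1) j b := by
  rintro ⟨-, -, -, h4, -⟩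
  have := h.2.2.2.1
  omega

lemma D_disj_y {k i a j b : ℕ} {q : Rc} (h : q ∈ D k i a (j + 1) (2 * b)) :
    q ∉ D k i a (j + 1) (2 * b + 1) := by
  rintro ⟨-, -, -, -, h5⟩
  have := h.2.2.2.2
  omega

lemma V_congr {ω ω' : Rc → Prop} : ∀ {k i a j b : ℕ}, (∀ q ∈ D k i a j b, ω q ↔ ω' q) →
    (V ω k i a j b ↔ V ω' k i a j b) := by
  intro k
  induction k with
  | zero => intro i a j b h; exact h _ (self_mem_D _ _ _ _ _)
  | succ k ih =>
    intro i a j b h
    unfold V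
    rw [h _ (self_mem_D _ _ _ _ _), ih fun q hq => h q (D_sub_x (half0 a) hq),
      ih fun q hq => h q (D_sub_x (half1 a) hq), ih fun q hq => h q (D_sub_y (half0 b) hq),
      ih fun q hq => h q (D_sub_y (half1 b) hq)]

lemma V_mono {ω ω' : Rc → Prop} (h : ∀ q, ω q → ω' q) :
    ∀ {k i a j b : ℕ}, V ω k i a j b → V ω' k i a j b := by
  intro k
  induction k with
  | zero => intro i a j b; exact h _
  | succ k ih =>
    intro i a j b h'
    unfold V at h' ⊢
    rcases h' with h' | ⟨h1, h2⟩ | ⟨h1, h2⟩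
    · exact Or.inl (h _ h')
    · exact Or.inr (Or.inl ⟨ih h1, ih h2⟩)
    · exact Or.inr (Or.inr ⟨ih h1, ih h2⟩)

lemma V_succ {ω : Rc → Prop} : ∀ {k i a j b : ℕ}, V ω k i a j b → V ω (k + 1) i a j b := by
  intro k
  induction k with
  | zero => intro i a j b h; exact Or.inl h
  | succ k ih =>
    intro i a j b h'
    unfold V at h'
    rw [V]
    rcases h' with h' | ⟨h1, h2⟩ | ⟨h1, h2⟩
    · exact Or.inl h'
    · exact Or.inr (Or.inl ⟨ih h1, ih h2⟩)
    · exact Or.inr (Or.inr ⟨ih h1, ih h2⟩)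

lemma V_le {ω : Rc → Prop} {k l i a j b : ℕ} (hkl : k ≤ l) (h : V ω k i a j b) :
    V ω l i a j b := by
  induction hkl with
  | refl => exact h
  | step _ ih => exact V_succ ih

section

variable {ι : Type*} [Fintype ι] {p : ℝ} (φ : Rc → ι)

/-- the event that the rectangle can be filled -/
def E (k i a j b : ℕ) (ω : ι → Bool) : Prop := V (fun q => ω (φ q) = true) k i a j b

omit [Fintype ι] in
lemma dep_E (k i a j b : ℕ) : Dep (φ '' D k i a j b) (E φ k i a j b) := by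
  intro ω ω' h
  refine V_congr fun q hq => ?_
  rw [h _ ⟨q, hq, rfl⟩]

omit [Fintype ι] in
lemma inc_E (k i a j b : ℕ) {ω ω' : ι → Bool} (h : ω ≤ ω') :
    E φ k i a j b ω → E φ k i a j b ω' := by
  refine V_mono fun q hq => ?_
  have h1 := h (φ q)
  have h2 : ω (φ q) = true := hq
  rw [h2] at h1
  exact Bool.eq_true_of_true_le h1

/-- the recursive inequality gives the bound `1 / 3` -/
theorem Pr_E_le (h0 : 0 ≤ p) (hp : p ≤ 5 / 32) {n : ℕ} (hφ : Set.InjOn φ (G n)) :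
    ∀ k i a j b : ℕ, a < 2 ^ i → b < 2 ^ j → i + j + k ≤ n → Pr p (E φ k i a j b) ≤ 1 / 3 := by
  have h1 : p ≤ 1 := by linarith
  intro k
  induction k with
  | zero =>
    intro i a j b ha hb hn
    have : Pr p (E φ 0 i a j b) = p := Pr_coord (φ (i, a, j, b))
    rw [this]
    linarith
  | succ k ih =>
    intro i a j b ha hb hn
    have hG : D (k + 1) i a j b ⊆ G n := D_sub_G ha hb hn
    have ha0 : 2 * a < 2 ^ (i + 1) := by rw [pow_succ]; omega
    have ha1 : 2 * a + 1 < 2 ^ (i + 1) := by rw [pow_succ]; omega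
    have hb0 : 2 * b < 2 ^ (j + 1) := by rw [pow_succ]; omega
    have hb1 : 2 * b + 1 < 2 ^ (j + 1) := by rw [pow_succ]; omega
    have i1 := ih (i + 1) (2 * a) j b ha0 hb (by omega)
    have i2 := ih (i + 1) (2 * a + 1) j b ha1 hb (by omega)
    have i3 := ih i a (j + 1) (2 * b) ha hb0 (by omega)
    have i4 := ih i a (j + 1) (2 * b + 1) ha hb1 (by omega)
    have n1 := Pr_nonneg h0 h1 (E φ k (i + 1) (2 * a) j b)
    have n2 := Pr_nonneg h0 h1 (E φ k (i + 1) (2 * a + 1) j b)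
    have n3 := Pr_nonneg h0 h1 (E φ k i a (j + 1) (2 * b))
    have n4 := Pr_nonneg h0 h1 (E φ k i a (j + 1) (2 * b + 1))
    -- the two splittings
    set X : (ι → Bool) → Prop := fun ω => E φ k (i + 1) (2 * a) j b ω ∧
      E φ k (i + 1) (2 * a + 1) j b ω with hX
    set Y : (ι → Bool) → Prop := fun ω => E φ k i a (j + 1) (2 * b) ω ∧
      E φ k i a (j + 1) (2 * b + 1) ω with hY
    have sub : ∀ q q' : Rc, q ∈ D (k + 1) i a j b → q' ∈ D (k + 1) i a j b → φ q = φ q' →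
        q = q' := fun q q' hq hq' h => hφ (hG hq) (hG hq') h
    have pX : Pr p X = Pr p (E φ k (i + 1) (2 * a) j b) * Pr p (E φ k (i + 1) (2 * a + 1) j b) := by
      refine Pr_and (dep_E φ _ _ _ _ _) (dep_E φ _ _ _ _ _) ?_
      rintro _ ⟨q, hq, rfl⟩ ⟨q', hq', he⟩
      have := sub q' q (D_sub_x (half1 a) hq') (D_sub_x (half0 a) hq) he
      rw [this] at hq'
      exact D_disj_x hq hq'
    have pY : Pr p Y = Pr p (E φ k i a (j + 1) (2 * b)) * Pr p (E φ k i a (j + 1) (2 * b + 1)) := by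
      refine Pr_and (dep_E φ _ _ _ _ _) (dep_E φ _ _ _ _ _) ?_
      rintro _ ⟨q, hq, rfl⟩ ⟨q', hq', he⟩
      have := sub q' q (D_sub_y (half1 b) hq') (D_sub_y (half0 b) hq) he
      rw [this] at hq'
      exact D_disj_y hq hq'
    have x9 : Pr p X ≤ 1 / 9 := by rw [pX]; nlinarith
    have y9 : Pr p Y ≤ 1 / 9 := by rw [pY]; nlinarith
    have x0 := Pr_nonneg h0 h1 X
    have y0 := Pr_nonneg h0 h1 Y
    have hZ : Pr p (fun ω => X ω ∨ Y ω) ≤ 1 - (1 - Pr p X) * (1 - Pr p Y) := by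
      refine Pr_or_le_harris h0 h1 ?_ ?_
      · rintro ω ω' h ⟨u1, u2⟩
        exact ⟨inc_E φ _ _ _ _ _ h u1, inc_E φ _ _ _ _ _ h u2⟩
      · rintro ω ω' h ⟨u1, u2⟩
        exact ⟨inc_E φ _ _ _ _ _ h u1, inc_E φ _ _ _ _ _ h u2⟩
    have hZ' : Pr p (fun ω => X ω ∨ Y ω) ≤ 17 / 81 := by
      refine hZ.trans ?_
      nlinarith
    -- the rectangle itself
    have hA : Pr p (E φ (k + 1) i a j b) = 1 - (1 - p) * (1 - Pr p (fun ω => X ω ∨ Y ω)) := by
      have e1 : Pr p (E φ (k + 1) i a j b) =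
          1 - Pr p (fun ω => ¬ (ω (φ (i, a, j, b)) = true) ∧ ¬ (X ω ∨ Y ω)) := by
        rw [← Pr_not]
        refine Pr_congr fun ω => ?_
        rw [E, V]
        simp only [hX, hY, E]
        tauto
      have e2 : Pr p (fun ω => ¬ (ω (φ (i, a, j, b)) = true) ∧ ¬ (X ω ∨ Y ω)) =
          Pr p (fun ω : ι → Bool => ¬ (ω (φ (i, a, j, b)) = true)) *
            Pr p (fun ω => ¬ (X ω ∨ Y ω)) := by
        refine Pr_and (A := {φ (i, a, j, b)}) (B := φ '' (D (k + 1) i a j b \ {(i, a, j, b)}))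
          ?_ ?_ ?_
        · intro ω ω' h
          change ¬ (ω (φ (i, a, j, b)) = true) ↔ ¬ (ω' (φ (i, a, j, b)) = true)
          rw [h _ rfl]
        · have hsub : ∀ {T : Set Rc}, T ⊆ D (k + 1) i a j b → (i, a, j, b) ∉ T →
              φ '' T ⊆ φ '' (D (k + 1) i a j b \ {(i, a, j, b)}) := by
            intro T hT hn
            refine Set.image_mono fun q hq => ⟨hT hq, ?_⟩
            rintro rfl
            exact hn hq
          have m1 : ∀ c, (i, a, j, b) ∉ D k (i + 1) c j b := by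
            rintro c ⟨h1, -⟩
            simp at h1
          have m2 : ∀ c, (i, a, j, b) ∉ D k i a (j + 1) c := by
            rintro c ⟨-, h1, -⟩
            simp at h1
          refine Dep.not (Dep.or (Dep.and ?_ ?_) (Dep.and ?_ ?_))
          · exact (dep_E φ _ _ _ _ _).mono (hsub (D_sub_x (half0 a)) (m1 _))
          · exact (dep_E φ _ _ _ _ _).mono (hsub (D_sub_x (half1 a)) (m1 _))
          · exact (dep_E φ _ _ _ _ _).mono (hsub (D_sub_y (half0 b)) (m2 _))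
          · exact (dep_E φ _ _ _ _ _).mono (hsub (D_sub_y (half1 b)) (m2 _))
        · rintro _ rfl ⟨q, ⟨hq, hqn⟩, he⟩
          exact hqn (sub q _ hq (self_mem_D _ _ _ _ _) he)
      rw [e1, e2, Pr_not, Pr_not, Pr_coord]
    rw [hA]
    nlinarith

end

/-! ### The probability `s k` -/

/-- the finite set of the dyadic rectangles of order at most `n` -/
noncomputable def Gf (n : ℕ) : Finset Rc :=
  (range (n + 1) ×ˢ range (2 ^ n) ×ˢ range (n + 1) ×ˢ range (2 ^ n)).filter (· ∈ G n)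

lemma mem_Gf {n : ℕ} {q : Rc} : q ∈ Gf n ↔ q ∈ G n := by
  unfold Gf
  rw [mem_filter, and_iff_right_iff_imp]
  rintro ⟨h1, h2, h3⟩
  have h4 : 2 ^ q.1 ≤ 2 ^ n := Nat.pow_le_pow_right (by norm_num) (by omega)
  have h5 : 2 ^ q.2.2.1 ≤ 2 ^ n := Nat.pow_le_pow_right (by norm_num) (by omega)
  simp only [mem_product, mem_range]
  omega

lemma root_mem (n : ℕ) : (0, 0, 0, 0) ∈ Gf n := by
  rw [mem_Gf]
  simp [G]

/-- the labelling of the rectangles by the finite set -/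
noncomputable def lab (n : ℕ) (q : Rc) : {q : Rc // q ∈ Gf n} :=
  if h : q ∈ Gf n then ⟨q, h⟩ else ⟨_, root_mem n⟩

lemma lab_inj (n : ℕ) : Set.InjOn (lab n) (G n) := by
  intro q hq q' hq' h
  unfold lab at h
  rw [dif_pos (mem_Gf.2 hq), dif_pos (mem_Gf.2 hq')] at h
  exact congrArg Subtype.val h

/-- the probability that the unit square can be filled by available rectangles of order at most `k` -/
noncomputable def s (p : ℝ) (k : ℕ) : ℝ := Pr p (E (lab k) k 0 0 0 0)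

theorem Pr_E_root {ι : Type*} [Fintype ι] {p : ℝ} (φ : Rc → ι) {n k : ℕ}
    (hφ : Set.InjOn φ (G n)) (hk : k ≤ n) : Pr p (E φ k 0 0 0 0) = s p k := by
  have hinj : Function.Injective fun j : {q : Rc // q ∈ Gf k} => φ j.1 := by
    intro j j' h
    have hG : ∀ q : Rc, q ∈ Gf k → q ∈ G n := fun q hq => by
      have h1 := mem_Gf.1 hq
      exact ⟨h1.1.trans hk, h1.2⟩
    exact Subtype.ext (hφ (hG _ j.2) (hG _ j'.2) h)
  have h := Pr_comp (p := p) _ hinj (E (lab k) k 0 0 0 0)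
  rw [s, ← h]
  refine Pr_congr fun ω => V_congr fun q hq => ?_
  have hq' : q ∈ Gf k := mem_Gf.2 (D_sub_G (n := k) (by norm_num) (by norm_num) (by omega) hq)
  have : lab k q = ⟨q, hq'⟩ := by rw [lab, dif_pos hq']
  rw [this]

theorem s_le {p : ℝ} (h0 : 0 ≤ p) (hp : p ≤ 5 / 32) (k : ℕ) : s p k ≤ 1 / 3 :=
  Pr_E_le (lab k) h0 hp (lab_inj k) k 0 0 0 0 (by norm_num) (by norm_num) (by omega)

theorem s_nonneg {p : ℝ} (h0 : 0 ≤ p) (h1 : p ≤ 1) (k : ℕ) : 0 ≤ s p k := Pr_nonneg h0 h1 _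

theorem s_mono {p : ℝ} (h0 : 0 ≤ p) (h1 : p ≤ 1) : Monotone (s p) := by
  refine monotone_nat_of_le_succ fun k => ?_
  rw [← Pr_E_root (p := p) (lab (k + 1)) (lab_inj (k + 1)) (Nat.le_succ k), s]
  exact Pr_mono h0 h1 fun ω h => V_succ h

end Pool.Agent.helper17.Dya
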